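import Mathlib
import Pool.Agent.H234EP.SiggersBody

set_option autoImplicit false

/-!
An arbitrary algebra (idempotent or not) has a 6-ary Siggers term if and only if it has a 5-ary
term `t` with `t(r,a,r,e,e) ≈ t(a,r,e,a,r)`. The latter identity is obtained from the identity
`s(r,a,r,e) ≈ s(a,r,e,a)` of the 4-ary Siggers terms by adding the one pair `(e, r)`; the identity
of the 6-ary Siggers terms is obtained from it by adding also the pair `(a, e)`.
-/

namespace Pool.Agent.Results.MP_71d0e6_al.FiveAry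

open Pool.Agent.H234EP.Siggers

theorem result {A ι : Type*} {ar : ι → ℕ} (op : (i : ι) → (Fin (ar i) → A) → A) :
    (∃ s : (Fin 6 → A) → A, IsTerm op 6 s ∧
      ∀ x y z, s ![x, y, x, z, y, z] = s ![y, x, z, x, z, y]) ↔
    (∃ t : (Fin 5 → A) → A, IsTerm op 5 t ∧
      ∀ r a e, t ![r, a, r, e, e] = t ![a, r, e, a, r]) := by
  constructor
  · rintro ⟨S, hS, h⟩
    refine ⟨_, t79_term hS, fun r a e => ?_⟩
    have hs : ∀ x y z, cur S x y x z y z = cur S y x z x z y := h
    exact (t79_src hs r a e).trans (t79_tgt hs r a e).symm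
  · rintro ⟨t, ht, h⟩
    refine ⟨fun v => t (fun j => ![v 0, v 1, v 2, v 5, v 3] j), ?_, fun x y z => ?_⟩
    · have h1 := ht.subst (n := 6) (fun j v => ![v 0, v 1, v 2, v 5, v 3] j)
        (by intro j; fin_cases j <;> exact IsTerm.proj _)
      exact h1
    · exact h x y z

end Pool.Agent.Results.MP_71d0e6_al.FiveAry
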